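import Pool.Statements.S01554
import Mathlib

set_option autoImplicit false
open Pool Pool.MP_58cc81_al

namespace Pool.Agent.S01554

/-!
The counterexample: `G` is the set of pairs `(v, z)`, `v` in the direct sum of countably many copies
of `ℤ/2`, `z` in the product of circles indexed by `ℕ × ℕ`, with
`(v, z) (w, y) = (v + w, z y β(v, w))`, `β(v, w)(i, j) = (-1)^(v_i w_j)`. Two elements commute if and
only if `v, w` are linearly dependent, so that abelian subgroups are covered by two cosets of the
compact open central subgroup of the elements `(0, z)`.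
-/

/-- the sign character of `ℤ/2` -/
noncomputable def sg (a : ZMod 2) : Circle := if a = 0 then 1 else -1

lemma neg_one_ne_one : (-1 : Circle) ≠ 1 := by
  intro h
  have h1 := congrArg (fun z : Circle => (z : ℂ)) h
  simp at h1
  have h2 := congrArg Complex.re h1
  norm_num at h2

@[simp] lemma sg_zero : sg 0 = 1 := by simp [sg]

@[simp] lemma sg_one : sg 1 = -1 := by simp [sg]

lemma zmod_cases : ∀ a : ZMod 2, a = 0 ∨ a = 1 := by decide

lemma sg_add (a b : ZMod 2) : sg (a + b) = sg a * sg b := by
  rcases zmod_cases a with rfl | rfl <;> rcases zmod_cases b with rfl | rfl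
  · simp
  · simp
  · simp
  · rw [show (1 : ZMod 2) + 1 = 0 from rfl, sg_zero, sg_one]
    ext; simp

lemma sg_inj (a b : ZMod 2) (h : sg a = sg b) : a = b := by
  rcases zmod_cases a with rfl | rfl <;> rcases zmod_cases b with rfl | rfl
  · rfl
  · rw [sg_zero, sg_one] at h
    exact absurd h.symm neg_one_ne_one
  · rw [sg_zero, sg_one] at h
    exact absurd h neg_one_ne_one
  · rfl

/-- the direct sum of countably many copies of `ℤ/2`, with the discrete topology -/
def V : Type := ℕ →₀ ZMod 2

namespace V

noncomputable instance : AddCommGroup V := inferInstanceAs (AddCommGroup (ℕ →₀ ZMod 2))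
noncomputable instance : Module (ZMod 2) V := inferInstanceAs (Module (ZMod 2) (ℕ →₀ ZMod 2))
instance : TopologicalSpace V := ⊥
instance : DiscreteTopology V := ⟨rfl⟩

/-- the coordinates -/
def co (v : V) (i : ℕ) : ZMod 2 := (show ℕ →₀ ZMod 2 from v) i

@[simp] lemma co_add (v w : V) (i : ℕ) : co (v + w) i = co v i + co w i := rfl
@[simp] lemma co_zero (i : ℕ) : co 0 i = 0 := rfl
lemma ext {v w : V} (h : ∀ i, co v i = co w i) : v = w := Finsupp.ext h

lemma infinite : Infinite V := by
  have : Function.Injective (fun n : ℕ => (show V from Finsupp.single n (1 : ZMod 2))) := by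
    intro m n h
    have h1 : (Finsupp.single m (1 : ZMod 2) : ℕ →₀ ZMod 2) = Finsupp.single n 1 := h
    exact (Finsupp.single_left_inj one_ne_zero).1 h1
  exact Infinite.of_injective _ this

end V

/-- The underlying set of the group. -/
@[ext] structure E : Type where
  v : V
  z : ℕ × ℕ → Circle

namespace E

/-- the cocycle -/
noncomputable def beta (v w : V) : ℕ × ℕ → Circle := fun p => sg (V.co v p.1 * V.co w p.2)

lemma beta_add_left (v v' w : V) : beta (v + v') w = beta v w * beta v' w := by
  funext p
  simp [beta, add_mul, sg_add]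

lemma beta_add_right (v w w' : V) : beta v (w + w') = beta v w * beta v w' := by
  funext p
  simp [beta, mul_add, sg_add]

@[simp] lemma beta_zero_left (w : V) : beta 0 w = 1 := by
  funext p
  simp [beta]

@[simp] lemma beta_zero_right (w : V) : beta w 0 = 1 := by
  funext p
  simp [beta]

noncomputable instance : Mul E := ⟨fun a b => ⟨a.v + b.v, a.z * b.z * beta a.v b.v⟩⟩
noncomputable instance : One E := ⟨⟨0, 1⟩⟩
noncomputable instance : Inv E := ⟨fun a => ⟨-a.v, a.z⁻¹ * beta a.v a.v⟩⟩

@[simp] lemma mul_v (a b : E) : (a * b).v = a.v + b.v := rfl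
@[simp] lemma mul_z (a b : E) : (a * b).z = a.z * b.z * beta a.v b.v := rfl
@[simp] lemma one_v : (1 : E).v = 0 := rfl
@[simp] lemma one_z : (1 : E).z = 1 := rfl
@[simp] lemma inv_v (a : E) : (a⁻¹).v = -a.v := rfl
@[simp] lemma inv_z (a : E) : (a⁻¹).z = a.z⁻¹ * beta a.v a.v := rfl

noncomputable instance : Group E :=
  Group.ofLeftAxioms
    (by
      intro a b c
      ext1
      · simp [add_assoc]
      · simp only [mul_z, mul_v, beta_add_left, beta_add_right]
        ac_rfl)
    (by
      intro a
      ext1 <;> simp)
    (by
      intro a
      ext1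
      · simp
      · simp only [mul_z, inv_z, inv_v, one_z]
        have h : beta (-a.v) a.v * beta a.v a.v = 1 := by
          rw [← beta_add_left]; simp
        calc a.z⁻¹ * beta a.v a.v * a.z * beta (-a.v) a.v
            = (a.z⁻¹ * a.z) * (beta (-a.v) a.v * beta a.v a.v) := by ac_rfl
          _ = 1 := by rw [h]; simp)

/-- the bijection with the product of the discrete space and the compact group -/
def equivProd : E ≃ V × (ℕ × ℕ → Circle) where
  toFun a := (a.v, a.z)
  invFun p := ⟨p.1, p.2⟩
  left_inv _ := rfl
  right_inv _ := rfl

noncomputable instance : TopologicalSpace E := TopologicalSpace.induced equivProd inferInstance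

/-- the homeomorphism with the product -/
noncomputable def homeo : E ≃ₜ V × (ℕ × ℕ → Circle) :=
  equivProd.toHomeomorphOfIsInducing ⟨rfl⟩

lemma continuous_v : Continuous (fun a : E => a.v) := continuous_fst.comp homeo.continuous

lemma continuous_z : Continuous (fun a : E => a.z) := continuous_snd.comp homeo.continuous

lemma continuous_iff {X : Type} [TopologicalSpace X] (f : X → E)
    (h1 : Continuous fun x => (f x).v) (h2 : Continuous fun x => (f x).z) : Continuous f := by
  have : Continuous (homeo.symm ∘ fun x => ((f x).v, (f x).z)) :=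
    homeo.symm.continuous.comp (h1.prodMk h2)
  exact this

instance : IsTopologicalGroup E where
  continuous_mul := by
    refine continuous_iff _ ?_ ?_
    · have : Continuous (fun p : V × V => p.1 + p.2) := continuous_of_discreteTopology
      exact this.comp ((continuous_v.comp continuous_fst).prodMk (continuous_v.comp continuous_snd))
    · have : Continuous (fun p : V × V => beta p.1 p.2) := continuous_of_discreteTopology
      exact ((continuous_z.comp continuous_fst).mul (continuous_z.comp continuous_snd)).mul
        (this.comp ((continuous_v.comp continuous_fst).prodMk (continuous_v.comp continuous_snd)))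
  continuous_inv := by
    refine continuous_iff _ ?_ ?_
    · have : Continuous (fun p : V => -p) := continuous_of_discreteTopology
      exact this.comp continuous_v
    · have : Continuous (fun p : V => beta p p) := continuous_of_discreteTopology
      exact continuous_z.inv.mul (this.comp continuous_v)

instance : LocallyCompactSpace E := homeo.isClosedEmbedding.locallyCompactSpace

instance : T2Space E := homeo.isEmbedding.t2Space

lemma isCompact_pre (S : Set V) (hS : S.Finite) : IsCompact {a : E | a.v ∈ S} := by
  have h1 : IsCompact (S ×ˢ (Set.univ : Set (ℕ × ℕ → Circle))) := hS.isCompact.prod isCompact_univ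
  have h2 := homeo.isCompact_preimage.2 h1
  convert h2 using 1
  ext a
  simp [homeo, equivProd]

lemma isClosed_pre (S : Set V) : IsClosed {a : E | a.v ∈ S} :=
  (isClosed_discrete S).preimage continuous_v

lemma isOpen_pre (S : Set V) : IsOpen {a : E | a.v ∈ S} :=
  (isOpen_discrete S).preimage continuous_v

lemma isCompact_closure_of (T : Set E) (S : Set V) (hS : S.Finite) (h : ∀ a ∈ T, a.v ∈ S) :
    IsCompact (closure T) :=
  (isCompact_pre S hS).of_isClosed_subset isClosed_closure
    ((isClosed_pre S).closure_subset_iff.2 h)

/-- conjugation by `g` fixes the elements `(0, z)` -/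
lemma conj_eq (g x : E) (hx : x.v = 0) : g * x * g⁻¹ = x := by
  rw [mul_inv_eq_iff_eq_mul]
  ext1
  · simp [hx]
  · simp only [mul_z, hx, beta_zero_left, beta_zero_right]
    rw [mul_one, mul_one, mul_comm]

lemma beta_symm_of_comm (a b : E) (h : a * b = b * a) : beta a.v b.v = beta b.v a.v := by
  have h1 := congrArg E.z h
  simp only [mul_z] at h1
  rw [mul_comm b.z a.z] at h1
  exact mul_left_cancel h1

/-- small invariant neighbourhoods -/
lemma balanced : ∀ U ∈ nhds (1 : E), ∃ W ∈ nhds (1 : E), W ⊆ U ∧
    ∀ g x : E, x ∈ W → g * x * g⁻¹ ∈ W := by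
  intro U hU
  refine ⟨U ∩ {a : E | a.v ∈ ({0} : Set V)}, Filter.inter_mem hU ?_, Set.inter_subset_left, ?_⟩
  · exact (isOpen_pre {0}).mem_nhds (by simp)
  · rintro g x ⟨hx1, hx2⟩
    rw [conj_eq g x hx2]
    exact ⟨hx1, hx2⟩

/-- abelian subgroups are relatively compact -/
lemma abelian_compact (H : Subgroup E) (hH : ∀ a ∈ H, ∀ b ∈ H, a * b = b * a) :
    IsCompact (closure (H : Set E)) := by
  by_cases h0 : ∀ a ∈ H, a.v = 0
  · exact isCompact_closure_of _ {0} (Set.finite_singleton _) (fun a ha => h0 a ha)
  · push Not at h0
    obtain ⟨a, ha, hav⟩ := h0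
    refine isCompact_closure_of _ {0, a.v} (Set.toFinite _) ?_
    intro b hb
    have h1 := beta_symm_of_comm a b (hH a ha b hb)
    obtain ⟨i, hi⟩ : ∃ i, V.co a.v i ≠ 0 := by
      by_contra hcon
      push Not at hcon
      exact hav (V.ext fun i => by simp [hcon i])
    have hi1 : V.co a.v i = 1 := (zmod_cases _).resolve_left hi
    have h2 : ∀ j, V.co b.v j = V.co b.v i * V.co a.v j := by
      intro j
      have h3 := sg_inj _ _ (congrFun h1 (i, j))
      simpa [hi1] using h3
    rcases zmod_cases (V.co b.v i) with h3 | h3
    · left
      exact V.ext fun j => by rw [h2 j, h3]; simp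
    · right
      exact V.ext fun j => by rw [h2 j, h3]; simp

/-- topological local finiteness -/
lemma locally_finite (K : Set E) (hK : IsCompact (closure K)) :
    IsCompact (closure ((Subgroup.closure K : Subgroup E) : Set E)) := by
  have h1 : ((fun a : E => a.v) '' closure K).Finite := (hK.image continuous_v).finite_of_discrete
  have h2 : Module.Finite (ZMod 2) (Submodule.span (ZMod 2) ((fun a : E => a.v) '' closure K)) :=
    Module.Finite.span_of_finite _ h1
  have h3 : Finite (Submodule.span (ZMod 2) ((fun a : E => a.v) '' closure K)) :=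
    Module.finite_of_finite (ZMod 2)
  refine isCompact_closure_of _
    ((Submodule.span (ZMod 2) ((fun a : E => a.v) '' closure K) : Submodule (ZMod 2) V) : Set V)
    (Set.toFinite _) ?_
  intro a ha
  refine Subgroup.closure_induction (p := fun a _ => a.v ∈
    ((Submodule.span (ZMod 2) ((fun a : E => a.v) '' closure K) : Submodule (ZMod 2) V) : Set V))
    ?_ ?_ ?_ ?_ ha
  · intro x hx
    exact Submodule.subset_span ⟨x, subset_closure hx, rfl⟩
  · exact Submodule.zero_mem _
  · intro x y _ _ hx hy
    exact Submodule.add_mem _ hx hy
  · intro x _ hx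
    exact Submodule.neg_mem _ hx

lemma not_totallyDisconnected : ¬ TotallyDisconnectedSpace E := by
  intro h
  let f : ℝ → E := fun t => ⟨0, fun _ => Circle.exp t⟩
  have hf : Continuous f := by
    refine continuous_iff _ continuous_const ?_
    exact continuous_pi fun _ => Circle.exp.continuous
  have h1 : IsPreconnected (Set.range f) := isPreconnected_range hf
  have h2 := h.isTotallyDisconnected_univ (Set.range f) (Set.subset_univ _) h1
  have h3 : f 0 = f Real.pi := h2 ⟨0, rfl⟩ ⟨Real.pi, rfl⟩
  have h4 := congrFun (congrArg E.z h3) (0, 0)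
  have h5 : Circle.exp 0 = Circle.exp Real.pi := h4
  have h6 := congrArg (fun z : Circle => (z : ℂ)) h5
  simp [Circle.coe_exp, Complex.exp_pi_mul_I] at h6
  have h7 := congrArg Complex.re h6
  norm_num at h7

lemma not_compact : ¬ CompactSpace E := by
  intro h
  have h1 : IsCompact (Set.range fun a : E => a.v) := isCompact_range continuous_v
  have h2 : (Set.range fun a : E => a.v) = Set.univ :=
    Set.range_eq_univ.2 fun v => ⟨⟨v, 1⟩, rfl⟩
  rw [h2] at h1
  have h3 := h1.finite_of_discrete
  have := V.infinite
  exact Set.infinite_univ h3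

end E

/-- The negation of the preceding statement: A Hausdorff locally compact group with small invariant neighbourhoods, whose abelian subgroups have compact closure and whose relatively compact subsets generate relatively compact subgroups, is totally disconnected or compact. -/
theorem result :
    ¬ (∀ (G : Type) [Group G] [TopologicalSpace G] [IsTopologicalGroup G]
      [LocallyCompactSpace G] [T2Space G],
      (∀ U ∈ nhds (1 : G), ∃ V ∈ nhds (1 : G), V ⊆ U ∧
          ∀ g x : G, x ∈ V → g * x * g⁻¹ ∈ V) →
      (∀ H : Subgroup G, (∀ a ∈ H, ∀ b ∈ H, a * b = b * a) →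
          IsCompact (closure (H : Set G))) →
      (∀ K : Set G, IsCompact (closure K) →
          IsCompact (closure ((Subgroup.closure K : Subgroup G) : Set G))) →
      TotallyDisconnectedSpace G ∨ CompactSpace G) := by
  intro h
  rcases h E E.balanced E.abelian_compact E.locally_finite with h1 | h1
  · exact E.not_totallyDisconnected h1
  · exact E.not_compact h1

end Pool.Agent.S01554
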