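import Pool.Statements.S02070
import Pool.Agent.K7.H91.OnnTwo

set_option autoImplicit false
open Pool Pool.MP_7ed69f_al

namespace Pool.Agent.S02070

open Pool.Agent.K7.H91 Pool.Agent.K7.H91.OnnRing

lemma mem_iff {p : ℕ} [Fact p.Prime] (a : ℤ_[p]) :
    a ∈ IsLocalRing.maximalIdeal ℤ_[p] ↔ PadicInt.toZMod a = 0 := by
  rw [← PadicInt.ker_toZMod, RingHom.mem_ker]

lemma lift_zero {p : ℕ} [Fact p.Prime] (a : ℤ_[p]) (ha : a ∈ IsLocalRing.maximalIdeal ℤ_[p] ^ 2) :
    PadicInt.toZMod a = 0 :=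
  (mem_iff a).1 (Ideal.pow_le_self (by norm_num) ha)

/-- The ring of length two attached to the `p`-adic integers. -/
noncomputable def len2 (p : ℕ) [Fact p.Prime] :
    Len2 p (ℤ_[p] ⧸ IsLocalRing.maximalIdeal ℤ_[p] ^ 2) where
  red := Ideal.Quotient.lift (IsLocalRing.maximalIdeal ℤ_[p] ^ 2) PadicInt.toZMod lift_zero
  surj := by
    intro x
    obtain ⟨a, ha⟩ := ZMod.ringHom_surjective (PadicInt.toZMod (p := p)) x
    exact ⟨Ideal.Quotient.mk _ a, by rw [Ideal.Quotient.lift_mk]; exact ha⟩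
  sq := by
    intro a b
    obtain ⟨a, rfl⟩ := Ideal.Quotient.mk_surjective a
    obtain ⟨b, rfl⟩ := Ideal.Quotient.mk_surjective b
    rw [Ideal.Quotient.lift_mk, Ideal.Quotient.lift_mk]
    intro ha hb
    rw [← map_mul, Ideal.Quotient.eq_zero_iff_mem, pow_two]
    exact Ideal.mul_mem_mul ((mem_iff a).2 ha) ((mem_iff b).2 hb)
  w := Ideal.Quotient.mk _ (p : ℤ_[p])
  red_w := by
    rw [Ideal.Quotient.lift_mk, map_natCast, ZMod.natCast_self]
  gen := by
    intro a
    obtain ⟨a, rfl⟩ := Ideal.Quotient.mk_surjective a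
    rw [Ideal.Quotient.lift_mk]
    intro ha
    have ha' := (mem_iff a).2 ha
    rw [PadicInt.maximalIdeal_eq_span_p, Ideal.mem_span_singleton] at ha'
    obtain ⟨u, hu⟩ := ha'
    exact ⟨Ideal.Quotient.mk _ u, by rw [hu, map_mul]⟩
  w_ne := by
    intro h
    rw [Ideal.Quotient.eq_zero_iff_mem, PadicInt.maximalIdeal_eq_span_p, Ideal.span_singleton_pow,
      Ideal.mem_span_singleton] at h
    obtain ⟨c, hc⟩ := h
    have hp0 : (p : ℤ_[p]) ≠ 0 := by exact_mod_cast (Fact.out : p.Prime).ne_zero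
    have h1 : (p : ℤ_[p]) * 1 = (p : ℤ_[p]) * (p * c) := by
      rw [mul_one, ← mul_assoc, ← pow_two]; exact hc
    have h2 := mul_left_cancel₀ hp0 h1
    have h3 : IsUnit (p : ℤ_[p]) := IsUnit.of_mul_eq_one c h2.symm
    exact PadicInt.p_nonunit h3

instance finite_quot (p : ℕ) [Fact p.Prime] :
    Finite (ℤ_[p] ⧸ IsLocalRing.maximalIdeal ℤ_[p] ^ 2) := by
  have h : IsLocalRing.maximalIdeal ℤ_[p] ^ 2 = RingHom.ker (PadicInt.toZModPow (p := p) 2) := by
    rw [PadicInt.ker_toZModPow, PadicInt.maximalIdeal_eq_span_p, Ideal.span_singleton_pow]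
  rw [h]
  exact Finite.of_injective _ (RingHom.kerLift_injective (PadicInt.toZModPow (p := p) 2))

lemma card_residue (p : ℕ) [Fact p.Prime] :
    Nat.card (IsLocalRing.ResidueField ℤ_[p]) = p := by
  rw [Nat.card_congr (PadicInt.residueField (p := p)).toEquiv, Nat.card_zmod]

/-- The polynomial `x^3 (x+1) (x^2+x+1)`. -/
noncomputable def FF : Polynomial ℤ :=
  Polynomial.X ^ 3 * (Polynomial.X + 1) * (Polynomial.X ^ 2 + Polynomial.X + 1)

lemma FF_eval (x : ℤ) : FF.eval x = x ^ 3 * (x + 1) * (x ^ 2 + x + 1) := by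
  simp [FF]

/-- The negation of the preceding statement: For all N,r ≥ 2 there is a finite set of integer polynomials of degree ≤ C(N,2)·r whose values at q are exactly the dimensions of irreducible complex reps of GL_N(o/p^r) nontrivial on the level-(r−1) kernel, for every compact DVR o. -/
theorem result :
    ¬ (∀ N r : ℕ, 2 ≤ N → 2 ≤ r →
    ∃ P : Finset (Polynomial ℤ), (∀ d ∈ P, d.natDegree ≤ N.choose 2 * r) ∧
    ∀ (R : Type) [CommRing R] [IsDomain R] [IsDiscreteValuationRing R]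
      [Finite (IsLocalRing.ResidueField R)]
      [IsAdicComplete (IsLocalRing.maximalIdeal R) R],
    {z : ℤ | ∃ (V : Type) (_ : AddCommGroup V) (_ : Module ℂ V)
        (ρ : Representation ℂ
          (Matrix.GeneralLinearGroup (Fin N) (R ⧸ IsLocalRing.maximalIdeal R ^ r)) V),
        FiniteDimensional ℂ V ∧ Nontrivial V ∧
        (∀ W : Submodule ℂ V, (∀ g v, v ∈ W → ρ g v ∈ W) → W = ⊥ ∨ W = ⊤) ∧
        (∃ g : Matrix.GeneralLinearGroup (Fin N) (R ⧸ IsLocalRing.maximalIdeal R ^ r),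
          (∀ i j, ∃ a ∈ IsLocalRing.maximalIdeal R ^ (r - 1),
            g.val i j
              - (1 : Matrix (Fin N) (Fin N) (R ⧸ IsLocalRing.maximalIdeal R ^ r)) i j
              = Ideal.Quotient.mk (IsLocalRing.maximalIdeal R ^ r) a) ∧ ρ g ≠ 1) ∧
        (Module.finrank ℂ V : ℤ) = z}
    = (fun d : Polynomial ℤ => d.eval (Nat.card (IsLocalRing.ResidueField R) : ℤ)) ''
        (P : Set (Polynomial ℤ))) := by
  classical
  intro H
  obtain ⟨P, -, hP⟩ := H 3 2 (by norm_num) (by norm_num)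
  -- the dimension `FF p` occurs for all odd primes
  have hodd : ∀ p : ℕ, p.Prime → 3 ≤ p → ∃ d ∈ P, d.eval (p : ℤ) = FF.eval (p : ℤ) := by
    intro p hp h3
    haveI : Fact p.Prime := ⟨hp⟩
    have hset := hP ℤ_[p]
    rw [card_residue p] at hset
    have hmem : FF.eval (p : ℤ) ∈
        (fun d : Polynomial ℤ => d.eval (p : ℤ)) '' (P : Set (Polynomial ℤ)) := by
      rw [← hset]
      let L := len2 p
      have hw : (1 + L.w) ≠ 1 := by
        intro h
        exact L.w_ne (by simpa using h)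
      obtain ⟨θ, hθ⟩ := MulChar.exists_apply_ne_one_of_hasEnoughRootsOfUnity
        (ℤ_[p] ⧸ IsLocalRing.maximalIdeal ℤ_[p] ^ 2) ℂ hw
      let χ := chi L θ
      have hidx := I_index L
      have hfr := OnnInd.finrank_indV (I L) χ
      have hne : OnnInd.indRep (I L) χ (⟨el L (Matrix.single 1 1 1), K_le_I L (el_mem L _)⟩ : I L) ≠ 1 := by
        apply OnnInd.rep_ne_one
        rw [chi_el]
        simpa using hθ
      refine ⟨OnnInd.indV (I L) χ, inferInstance, inferInstance, OnnInd.indRep (I L) χ,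
        inferInstance, ?_, ?_, ?_, ?_⟩
      · apply Module.nontrivial_of_finrank_pos (R := ℂ)
        rw [hfr]
        exact Nat.pos_of_ne_zero Subgroup.index_ne_zero_of_finite
      · intro W hW
        exact OnnInd.irreducible (I L) χ (K L) (K_le_I L) (stab L θ hθ h3) W hW
      · refine ⟨el L (Matrix.single 1 1 1), ?_, hne⟩
        intro i j
        refine ⟨(p : ℤ_[p]) * (Matrix.single 1 1 1 : Matrix (Fin 3) (Fin 3) ℤ_[p]) i j, ?_, ?_⟩
        · rw [show 2 - 1 = 1 from rfl, pow_one]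
          apply Ideal.mul_mem_right
          rw [PadicInt.maximalIdeal_eq_span_p]
          exact Ideal.mem_span_singleton_self _
        · rw [el_val, Matrix.add_apply, add_sub_cancel_left, Matrix.smul_apply, smul_eq_mul, map_mul]
          congr 1
          rw [Matrix.single_apply, Matrix.single_apply]
          split_ifs
          · rw [map_one]
          · rw [map_zero]
      · rw [hfr, hidx, FF_eval]
    obtain ⟨d, hd, hd'⟩ := hmem
    exact ⟨d, hd, hd'⟩
  -- hence `FF ∈ P`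
  have hFF : FF ∈ P := by
    by_contra hnot
    have hfin : ∀ d ∈ P, {x : ℤ | d.eval x = FF.eval x}.Finite := by
      intro d hd
      by_contra hinf
      exact hnot (Polynomial.eq_of_infinite_eval_eq d FF hinf ▸ hd)
    have hfin2 : (⋃ d ∈ P, {x : ℤ | d.eval x = FF.eval x}).Finite :=
      Set.Finite.biUnion P.finite_toSet hfin
    have hinf : {p : ℕ | p.Prime ∧ 3 ≤ p}.Infinite := by
      intro hf
      apply Nat.infinite_setOf_prime
      refine (hf.union (Set.finite_Iio 3)).subset ?_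
      intro p hp
      by_cases h : 3 ≤ p
      · exact Or.inl ⟨hp, h⟩
      · exact Or.inr (by simpa using h)
    apply (hinf.image (f := fun n : ℕ => (n : ℤ)) (Nat.cast_injective.injOn)).mono ?_ hfin2
    rintro _ ⟨p, ⟨hp, h3⟩, rfl⟩
    obtain ⟨d, hd, hd'⟩ := hodd p hp h3
    simp only [Set.mem_iUnion]
    exact ⟨d, hd, hd'⟩
  -- the dimension `168` does not occur for the prime `2`
  haveI : Fact (Nat.Prime 2) := ⟨Nat.prime_two⟩
  have hset := hP ℤ_[2]
  rw [card_residue 2] at hset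
  have hmem : FF.eval ((2 : ℕ) : ℤ) ∈
      (fun d : Polynomial ℤ => d.eval ((2 : ℕ) : ℤ)) '' (P : Set (Polynomial ℤ)) := ⟨FF, hFF, rfl⟩
  rw [← hset] at hmem
  obtain ⟨V, _, _, ρ, hfd, hnt, hirr, -, hdim⟩ := hmem
  have h1 := OnnTwo.no_irrep (len2 2) ρ hirr
  rw [FF_eval] at hdim
  norm_num at hdim
  omega

end Pool.Agent.S02070
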