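import Pool.Statements.S02089
import Pool.Agent.K7.H14.SR.Main

set_option autoImplicit false
open Pool Pool.MP_812d11_al

namespace Pool.Agent.S02089

/-- There is a function f such that for every finite primitive permutation group whose point stabilizer has transitive constituents of maximum rank m, either the rank of the group is at most f(m) or the point stabilizer has order at most m. -/
theorem result :
  ∃ f : ℕ → ℕ, ∀ (α : Type) [Fintype α] (G : Subgroup (Equiv.Perm α)),
    MulAction.IsPreprimitive G α → ∀ (a : α) (m : ℕ),
      (∀ δ : α, Set.ncard {O : Set α | ∃ y ∈ MulAction.orbit (MulAction.stabilizer G a) δ,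
          O = MulAction.orbit (MulAction.stabilizer (MulAction.stabilizer G a) δ) y} ≤ m) →
      (∃ δ : α, Set.ncard {O : Set α | ∃ y ∈ MulAction.orbit (MulAction.stabilizer G a) δ,
          O = MulAction.orbit (MulAction.stabilizer (MulAction.stabilizer G a) δ) y} = m) →
      Nat.card (MulAction.orbitRel.Quotient (MulAction.stabilizer G a) α) ≤ f m ∨
        Nat.card (MulAction.stabilizer G a) ≤ m := by
  refine ⟨Pool.Agent.K7.H14.SR.ff, ?_⟩
  intro α _ G hprim a m h _
  exact Pool.Agent.K7.H14.SR.main α G hprim a m h

end Pool.Agent.S02089
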