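import Pool.Statements.S04778
import Pool.Agent.K7.H79.RZ.Max
-- import your own Pool.Agent.* helpers here

set_option autoImplicit false
open MeasureTheory Complex Real
open scoped SchwartzMap
open Pool Pool.MP_5c95f3_an

namespace Pool.Agent.S04778

open Filter Topology
open scoped ENNReal

open Pool.Agent.K7.H79.RZ in
lemma T_frozen (ψ : EuclideanSpace ℝ (Fin 2) → ℂ) (x : EuclideanSpace ℝ (Fin 2)) :
    ∫ ξ, Complex.exp (-(2 * (π : ℂ) * I * (inner ℝ x ξ : ℂ))) * ψ ξ = T ψ x := by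
  unfold T ex
  congr 1
  ext ξ
  congr 2
  rw [real_inner_comm]
  push_cast
  ring

open Pool.Agent.K7.H79.RZ in
lemma memLp_U {g : EuclideanSpace ℝ (Fin 2) → ℂ} (hg : SC g) : MemLp (U g) 2 := by
  rw [hg.U_coe]
  exact SchwartzMap.memLp _ 2 volume

open Pool.Agent.K7.H79.RZ in
lemma relation {g : EuclideanSpace ℝ (Fin 2) → ℂ} (hg : Adm g) (j : Fin 2)
    (ψ : 𝓢(EuclideanSpace ℝ (Fin 2), ℂ)) :
    ∫ x, U (fun ξ => m j ξ * g ξ) x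
        * (∫ ξ, Complex.exp (-(2 * (π : ℂ) * I * (inner ℝ x ξ : ℂ))) * ψ ξ)
      = ∫ x, U g x * (∫ ξ, Complex.exp (-(2 * (π : ℂ) * I * (inner ℝ x ξ : ℂ)))
          * ((-I * (inner ℝ ξ (EuclideanSpace.single j (1 : ℝ)) : ℂ) / (‖ξ‖ : ℂ)) * ψ ξ)) := by
  have hψ : Integrable (ψ : EuclideanSpace ℝ (Fin 2) → ℂ) := ψ.integrable
  have hmψ : Integrable fun ξ : EuclideanSpace ℝ (Fin 2) => m j ξ * ψ ξ := by
    refine hψ.norm.mono' ?_ (Eventually.of_forall fun ξ => ?_)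
    · apply AEStronglyMeasurable.mul _ hψ.aestronglyMeasurable
      have : m j = fun ξ : EuclideanSpace ℝ (Fin 2) =>
          -I * ((ξ j : ℝ) : ℂ) / ((‖ξ‖ : ℝ) : ℂ) := by
        ext ξ; exact m_eq j ξ
      rw [this]
      apply Measurable.aestronglyMeasurable
      fun_prop
    · rw [norm_mul]
      have := norm_m_le j ξ
      nlinarith [norm_nonneg (ψ ξ)]
  have e1 : ∀ x, (∫ ξ, Complex.exp (-(2 * (π : ℂ) * I * (inner ℝ x ξ : ℂ))) * ψ ξ)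
      = T ψ x := fun x => T_frozen ψ x
  have e2 : ∀ x, (∫ ξ, Complex.exp (-(2 * (π : ℂ) * I * (inner ℝ x ξ : ℂ)))
          * ((-I * (inner ℝ ξ (EuclideanSpace.single j (1 : ℝ)) : ℂ) / (‖ξ‖ : ℂ)) * ψ ξ))
      = T (fun ξ => m j ξ * ψ ξ) x := fun x => T_frozen (fun ξ => m j ξ * ψ ξ) x
  simp_rw [e1, e2]
  rw [pair (hg.m_mul j).sc hψ, pair hg.sc hmψ]
  congr 1
  ext ξ
  ring

open Pool.Agent.K7.H79.RZ in
lemma eLp_eq {F : Type*} [TopologicalSpace F] [ContinuousENorm F]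
    (f : EuclideanSpace ℝ (Fin 2) → F) :
    eLpNorm f (ENNReal.ofReal p0) volume = (∫⁻ x, ‖f x‖ₑ ^ p0) ^ (1 / p0) := by
  have hp := p0_pos
  have hp0 : ENNReal.ofReal p0 ≠ 0 := by simpa using hp
  rw [eLpNorm_eq_lintegral_rpow_enorm_toReal hp0 ENNReal.ofReal_ne_top,
    ENNReal.toReal_ofReal hp.le]

open Pool.Agent.K7.H79.RZ in
lemma max_fin {g : EuclideanSpace ℝ (Fin 2) → ℂ} (hg : Adm g) :
    eLpNorm (fun x : EuclideanSpace ℝ (Fin 2) => ⨆ (t : ℝ) (_ : 0 < t),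
      ‖∫ y, (((t ^ 2)⁻¹ : ℝ) : ℂ) * phi0 (t⁻¹ • (x - y)) * U g y‖ₑ) (ENNReal.ofReal p0) volume
      < ⊤ := by
  rw [eLp_eq]
  apply ENNReal.rpow_lt_top_of_nonneg (by have := p0_pos; positivity)
  obtain ⟨M, hM⟩ := exists_M p0_pos
  obtain ⟨C, hC, hb⟩ := max_bound hg M
  apply ne_of_lt
  refine lt_of_le_of_lt (lintegral_mono fun x => ?_)
    (lt_top_iff_ne_top.2 (lint_dec p0_pos hM C))
  apply ENNReal.rpow_le_rpow _ p0_pos.le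
  rw [enorm_eq_self]
  apply iSup₂_le
  intro t ht
  rw [phi0_coe, ← ofReal_norm]
  exact ENNReal.ofReal_le_ofReal (hb x t ht)

open Pool.Agent.K7.H79.RZ in
lemma max_low {h : EuclideanSpace ℝ (Fin 2) → ℂ} (H : Adm h)
    (e : ∀ ξ, ‖ξ‖ ≤ 2 → h ξ = hini ξ) :
    (∫⁻ x, ‖U glow x‖ₑ ^ p0) ^ (1 / p0)
      ≤ eLpNorm (fun x : EuclideanSpace ℝ (Fin 2) => ⨆ (t : ℝ) (_ : 0 < t),
      ‖∫ y, (((t ^ 2)⁻¹ : ℝ) : ℂ) * phi0 (t⁻¹ • (x - y)) * U (hsym h) y‖ₑ)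
        (ENNReal.ofReal p0) volume := by
  rw [eLp_eq]
  apply ENNReal.rpow_le_rpow _ (by have := p0_pos; positivity)
  apply lintegral_mono
  intro x
  apply ENNReal.rpow_le_rpow _ p0_pos.le
  rw [enorm_eq_self]
  refine le_trans (le_of_eq ?_) (le_iSup₂ (1 : ℝ) one_pos)
  rw [phi0_coe, max_formula (hsym_adm H).sc one_pos, low_eq e]

/-- The negation of the preceding statement: For all n≥1, 0<p<1 and Schwartz φ with integral 1, there are c,C>0 so that every L² function f with finite H^p maximal quasi-norm satisfies c·‖f‖_{H^p} ≤ ‖f‖_p + Σ‖R_j f‖_p ≤ C·‖f‖_{H^p}, with R_j the Riesz transforms. -/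
theorem result :
    ¬ (∀ n : ℕ, 1 ≤ n → ∀ p : ℝ, 0 < p → p < 1 →
  ∀ φ : 𝓢(EuclideanSpace ℝ (Fin n), ℂ), ∫ x, φ x = 1 →
  ∃ c C : ℝ, 0 < c ∧ 0 < C ∧
  ∀ f : EuclideanSpace ℝ (Fin n) → ℂ, MemLp f 2 →
  eLpNorm (fun x : EuclideanSpace ℝ (Fin n) => ⨆ (t : ℝ) (_ : 0 < t),
      ‖∫ y, (((t ^ n)⁻¹ : ℝ) : ℂ) * φ (t⁻¹ • (x - y)) * f y‖ₑ) (ENNReal.ofReal p) volume < ⊤ →
  ∀ R : Fin n → EuclideanSpace ℝ (Fin n) → ℂ,
    (∀ j : Fin n, MemLp (R j) 2 ∧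
      ∀ ψ : 𝓢(EuclideanSpace ℝ (Fin n), ℂ),
        ∫ x, R j x * (∫ ξ, Complex.exp (-(2 * (π : ℂ) * I * (inner ℝ x ξ : ℂ))) * ψ ξ)
          = ∫ x, f x * (∫ ξ, Complex.exp (-(2 * (π : ℂ) * I * (inner ℝ x ξ : ℂ)))
              * ((-I * (inner ℝ ξ (EuclideanSpace.single j (1 : ℝ)) : ℂ) / (‖ξ‖ : ℂ)) * ψ ξ))) →
    ENNReal.ofReal c * eLpNorm (fun x : EuclideanSpace ℝ (Fin n) => ⨆ (t : ℝ) (_ : 0 < t),
        ‖∫ y, (((t ^ n)⁻¹ : ℝ) : ℂ) * φ (t⁻¹ • (x - y)) * f y‖ₑ) (ENNReal.ofReal p) volume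
      ≤ eLpNorm f (ENNReal.ofReal p) volume + ∑ j, eLpNorm (R j) (ENNReal.ofReal p) volume
    ∧ eLpNorm f (ENNReal.ofReal p) volume + ∑ j, eLpNorm (R j) (ENNReal.ofReal p) volume
      ≤ ENNReal.ofReal C * eLpNorm (fun x : EuclideanSpace ℝ (Fin n) => ⨆ (t : ℝ) (_ : 0 < t),
        ‖∫ y, (((t ^ n)⁻¹ : ℝ) : ℂ) * φ (t⁻¹ • (x - y)) * f y‖ₑ) (ENNReal.ofReal p) volume) := by
  intro H
  have hp := Pool.Agent.K7.H79.RZ.p0_pos
  have hplt := Pool.Agent.K7.H79.RZ.p0_lt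
  obtain ⟨c, C, hc, -, hH⟩ := H 2 (by norm_num) Pool.Agent.K7.H79.RZ.p0 hp (by linarith)
    Pool.Agent.K7.H79.RZ.phi0 Pool.Agent.K7.H79.RZ.int_phi0
  set p := Pool.Agent.K7.H79.RZ.p0 with hpdef
  set L : ℝ≥0∞ := (∫⁻ x, ‖Pool.Agent.K7.H79.RZ.U Pool.Agent.K7.H79.RZ.glow x‖ₑ ^ p) ^ (1 / p)
    with hL
  have hLpos : 0 < L := by
    apply ENNReal.rpow_pos_of_nonneg (Pool.Agent.K7.H79.RZ.low_pos hp)
    positivity
  set a : ℝ≥0∞ := ENNReal.ofReal c * L with ha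
  have hapos : 0 < a := ENNReal.mul_pos (by simpa using hc) hLpos.ne'
  set δ : ℝ≥0∞ := min a 1 / 4 with hδ
  have hm1 : min a 1 ≠ 0 := (lt_min hapos one_pos).ne'
  have hm2 : min a 1 ≠ ⊤ := ne_top_of_le_ne_top ENNReal.one_ne_top (min_le_right _ _)
  have hδ0 : δ ≠ 0 := by
    rw [hδ, ENNReal.div_ne_zero]
    exact ⟨hm1, by norm_num⟩
  have hδlt : δ + (δ + δ) < a := by
    have h1 : δ + (δ + δ) < min a 1 := by
      have h2 : δ + (δ + δ) = min a 1 * (3 / 4) := by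
        rw [hδ, ENNReal.div_eq_inv_mul, ENNReal.div_eq_inv_mul]
        ring
      rw [h2]
      calc min a 1 * (3 / 4) < min a 1 * 1 := by
            apply ENNReal.mul_lt_mul_right hm1 hm2
            rw [ENNReal.div_lt_iff (by norm_num) (by norm_num)]
            norm_num
        _ = min a 1 := mul_one _
    exact h1.trans_le (min_le_left _ _)
  have hε0 : δ ^ p ≠ 0 := by
    intro h
    rw [ENNReal.rpow_eq_zero_iff] at h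
    rcases h with ⟨h, _⟩ | ⟨_, h⟩
    · exact hδ0 h
    · linarith
  obtain ⟨h, Hh, eh, hh⟩ := Pool.Agent.K7.H79.RZ.small Pool.Agent.K7.H79.RZ.hini_adm 2 hε0
  have Hs := Pool.Agent.K7.H79.RZ.hsym_adm Hh
  have hmain := (hH (Pool.Agent.K7.H79.RZ.U (Pool.Agent.K7.H79.RZ.hsym h)) (memLp_U Hs.sc)
    (max_fin Hs) (fun j => Pool.Agent.K7.H79.RZ.U fun ξ =>
      Pool.Agent.K7.H79.RZ.m j ξ * Pool.Agent.K7.H79.RZ.hsym h ξ)
    (fun j => ⟨memLp_U (Hs.m_mul j).sc, fun ψ => relation Hs j ψ⟩)).1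
  have hlow : a ≤ ENNReal.ofReal c * eLpNorm (fun x : EuclideanSpace ℝ (Fin 2) =>
      ⨆ (t : ℝ) (_ : 0 < t), ‖∫ y, (((t ^ 2)⁻¹ : ℝ) : ℂ) *
        Pool.Agent.K7.H79.RZ.phi0 (t⁻¹ • (x - y)) *
          Pool.Agent.K7.H79.RZ.U (Pool.Agent.K7.H79.RZ.hsym h) y‖ₑ) (ENNReal.ofReal p) volume :=
    mul_le_mul_right (max_low Hh eh) _
  have hbd : ∀ F : EuclideanSpace ℝ (Fin 2) → ℂ,
      (∀ x, ‖F x‖ ≤ ‖Pool.Agent.K7.H79.RZ.field h x‖) → eLpNorm F (ENNReal.ofReal p) volume ≤ δ := by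
    intro F hF
    rw [eLp_eq]
    have h1 : ∫⁻ x, ‖F x‖ₑ ^ p ≤ δ ^ p :=
      (lintegral_mono fun x => ENNReal.rpow_le_rpow
        (Pool.Agent.K7.H79.RZ.enorm_le_of_norm_le (hF x)) hp.le).trans hh
    calc (∫⁻ x, ‖F x‖ₑ ^ p) ^ (1 / p) ≤ (δ ^ p) ^ (1 / p) :=
          ENNReal.rpow_le_rpow h1 (by positivity)
      _ = δ := by
          rw [← ENNReal.rpow_mul, mul_one_div_cancel hp.ne', ENNReal.rpow_one]
  have hf : eLpNorm (Pool.Agent.K7.H79.RZ.U (Pool.Agent.K7.H79.RZ.hsym h)) (ENNReal.ofReal p)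
      volume ≤ δ := by
    apply hbd
    intro x
    rw [Pool.Agent.K7.H79.RZ.U_hsym Hh, Complex.norm_real]
    exact Pool.Agent.K7.H79.RZ.norm_fst_le (Pool.Agent.K7.H79.RZ.field h x)
  have hR : ∀ j : Fin 2, eLpNorm (Pool.Agent.K7.H79.RZ.U fun ξ =>
      Pool.Agent.K7.H79.RZ.m j ξ * Pool.Agent.K7.H79.RZ.hsym h ξ) (ENNReal.ofReal p)
      volume ≤ δ := by
    intro j
    apply hbd
    intro x
    rw [Pool.Agent.K7.H79.RZ.m_hsym, Pool.Agent.K7.H79.RZ.U_hsym (Hh.m_mul j), Complex.norm_real]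
    refine le_trans ?_ (Pool.Agent.K7.H79.RZ.norm_snd_le (Pool.Agent.K7.H79.RZ.field h x))
    exact PiLp.norm_apply_le (Pool.Agent.K7.H79.RZ.field h x).snd j
  have hfin := hlow.trans (hmain.trans (add_le_add hf
    (Finset.sum_le_sum fun j _ => hR j)))
  rw [Fin.sum_univ_two] at hfin
  exact absurd (lt_of_le_of_lt hfin hδlt) (lt_irrefl _)

end Pool.Agent.S04778
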