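import Pool.Statements.S07160

set_option autoImplicit false
open Pool Pool.MP_0cd801_co

namespace Pool.Agent.S07160

/-- out-neighbours of the vertices of a `3`-diregular oriented graph on `13` vertices without a
Hamilton cycle -/
def nb : ℕ → List ℕ
  | 0 => [2, 3, 5]
  | 1 => [0, 6, 12]
  | 2 => [1, 3, 10]
  | 3 => [8, 9, 11]
  | 4 => [5, 6, 8]
  | 5 => [2, 6, 11]
  | 6 => [0, 7, 10]
  | 7 => [5, 11, 12]
  | 8 => [1, 7, 9]
  | 9 => [0, 1, 4]
  | 10 => [3, 4, 7]
  | 11 => [2, 8, 12]
  | 12 => [4, 9, 10]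
  | _ => []

/-- is there a path with `k` more vertices from `v`, avoiding `vis`, whose last vertex is joined
to `0`? -/
def dfs : ℕ → ℕ → List ℕ → Bool
  | 0, v, _ => (nb v).elem 0
  | k + 1, v, vis => (nb v).any fun w => !(vis.elem w) && dfs k w (w :: vis)

theorem dfs_false : dfs 12 0 [0] = false := by decide +kernel

/-- the list of `g k, …, g 0` -/
def trail (g : ℕ → ℕ) : ℕ → List ℕ
  | 0 => [g 0]
  | k + 1 => g (k + 1) :: trail g k

theorem mem_trail (g : ℕ → ℕ) (k x : ℕ) (h : x ∈ trail g k) : ∃ i, i ≤ k ∧ x = g i := by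
  induction k with
  | zero => exact ⟨0, le_rfl, by simpa [trail] using h⟩
  | succ k ih =>
    rw [trail, List.mem_cons] at h
    rcases h with h | h
    · exact ⟨k + 1, le_rfl, h⟩
    · obtain ⟨i, hi, h⟩ := ih h
      exact ⟨i, by omega, h⟩

theorem dfs_true (g : ℕ → ℕ) (hadj : ∀ k < 12, g (k + 1) ∈ nb (g k)) (hclose : 0 ∈ nb (g 12))
    (hinj : ∀ i j, i ≤ 12 → j ≤ 12 → g i = g j → i = j) (m : ℕ) (hm : m ≤ 12) :
    dfs m (g (12 - m)) (trail g (12 - m)) = true := by
  induction m with
  | zero => simpa [dfs] using hclose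
  | succ m ih =>
    have ih := ih (by omega)
    obtain ⟨k, hk⟩ : ∃ k, 12 - (m + 1) = k := ⟨_, rfl⟩
    have hk' : 12 - m = k + 1 := by omega
    rw [hk'] at ih
    rw [hk, dfs, List.any_eq_true]
    refine ⟨g (k + 1), hadj k (by omega), ?_⟩
    rw [Bool.and_eq_true]
    refine ⟨?_, ih⟩
    have : g (k + 1) ∉ trail g k := by
      intro h
      obtain ⟨i, hi, h⟩ := mem_trail g k _ h
      have := hinj (k + 1) i (by omega) (by omega) h
      omega
    simpa using this

/-- The negation of the preceding statement: For every d > 2 and n ≤ 4d+1, every oriented graph on n vertices in which each vertex has in-degree d and out-degree d has a directed Hamilton cycle, i.e. a cyclic ordering of all n vertices with an arc from each vertex to the next. -/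
theorem result :
    ¬ (∀ (d n : ℕ), 2 < d → n ≤ 4 * d + 1 →
      ∀ G : Digraph (Fin n),
        (∀ u v : Fin n, G.Adj u v → ¬ G.Adj v u) →
        (∀ v : Fin n, Set.ncard {u : Fin n | G.Adj v u} = d) →
        (∀ v : Fin n, Set.ncard {u : Fin n | G.Adj u v} = d) →
        ∃ f : Fin n → Fin n, Function.Bijective f ∧
          ∀ i j : Fin n, j.val = (i.val + 1) % n → G.Adj (f i) (f j)) := by
  intro H
  obtain ⟨f, hf, hadj⟩ := H 3 13 (by norm_num) (by norm_num)
    ⟨fun u v => v.val ∈ nb u.val⟩
    (by
      change ∀ u v : Fin 13, v.val ∈ nb u.val → ¬ u.val ∈ nb v.val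
      decide)
    (by
      intro v
      change Set.ncard {u : Fin 13 | u.val ∈ nb v.val} = 3
      rw [Set.ncard_eq_toFinset_card']
      revert v
      decide)
    (by
      intro v
      change Set.ncard {u : Fin 13 | v.val ∈ nb u.val} = 3
      rw [Set.ncard_eq_toFinset_card']
      revert v
      decide)
  change ∀ i j : Fin 13, j.val = (i.val + 1) % 13 → (f j).val ∈ nb (f i).val at hadj
  obtain ⟨i₀, hi₀⟩ := hf.2 0
  have h := dfs_true (fun k => (f ⟨(i₀.val + k) % 13, Nat.mod_lt _ (by norm_num)⟩).val)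
    (by
      intro k hk
      refine hadj _ _ ?_
      simp only
      omega)
    (by
      have := hadj ⟨(i₀.val + 12) % 13, Nat.mod_lt _ (by norm_num)⟩ i₀ (by
        have := i₀.isLt
        simp only
        omega)
      rw [hi₀] at this
      exact this)
    (by
      intro i j hi hj hij
      have h1 := hf.1 (Fin.ext hij)
      have h2 := congrArg Fin.val h1
      simp only at h2
      omega)
    12 le_rfl
  have e : (⟨(i₀.val + 0) % 13, Nat.mod_lt _ (by norm_num)⟩ : Fin 13) = i₀ :=
    Fin.ext (by
      have := i₀.isLt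
      simp only
      omega)
  simp only [Nat.sub_self, trail, e, hi₀] at h
  rw [show ((0 : Fin 13).val) = 0 from rfl, dfs_false] at h
  exact absurd h (by decide)

end Pool.Agent.S07160
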