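import Pool.Statements.S08782
import Pool.Agent.K7.H22.SNP.Final

set_option autoImplicit false
open Pool Pool.MP_5400b1_co

namespace Pool.Agent.S08782

/-- The negation of the preceding statement: For every finite graph G: if, for each k, its chromatic polynomial in k variables is a nonnegative integer combination of Schur polynomials, then for each k every lattice point in its Newton polytope is an exponent of that polynomial. -/
theorem result :
    ¬ (∀ (V : Type) [Fintype V] (G : SimpleGraph V),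
      (∀ k : ℕ, ∃ c : YoungDiagram →₀ ℕ,
        (∑ᶠ κ : {κ : V → Fin k // ∀ u v, G.Adj u v → κ u ≠ κ v},
            ∏ v, (MvPolynomial.X ((κ.1 v : ℕ)) : MvPolynomial ℕ ℤ)) =
          c.sum (fun μ a => a • ∑ᶠ T : {T : SemistandardYoungTableau μ //
              ∀ p ∈ μ.cells, T p.1 p.2 < k},
            ∏ p ∈ μ.cells, (MvPolynomial.X (T.1 p.1 p.2) : MvPolynomial ℕ ℤ))) →
      ∀ k : ℕ, ∀ α : ℕ →₀ ℕ,
        (fun i : ℕ => (α i : ℝ)) ∈ convexHull ℝ
          ((fun β : ℕ →₀ ℕ => (fun i : ℕ => (β i : ℝ))) ''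
            ((∑ᶠ κ : {κ : V → Fin k // ∀ u v, G.Adj u v → κ u ≠ κ v},
              ∏ v, (MvPolynomial.X ((κ.1 v : ℕ)) : MvPolynomial ℕ ℤ)).support : Set (ℕ →₀ ℕ))) →
        α ∈ (∑ᶠ κ : {κ : V → Fin k // ∀ u v, G.Adj u v → κ u ≠ κ v},
              ∏ v, (MvPolynomial.X ((κ.1 v : ℕ)) : MvPolynomial ℕ ℤ)).support) := by
  intro H
  have h1 := H Pool.Agent.K7.H22.SNP.V12 Pool.Agent.K7.H22.SNP.G12
    (fun k => ⟨_, Pool.Agent.K7.H22.SNP.schur_positive k⟩) 3
    (Pool.Agent.K7.H22.SNP.vec3 7 4 1)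
  apply Pool.Agent.K7.H22.SNP.not_mem
  apply h1
  have e : (fun i : ℕ => ((Pool.Agent.K7.H22.SNP.vec3 7 4 1 i : ℕ) : ℝ)) =
      (1 / 2 : ℝ) • (fun i : ℕ => ((Pool.Agent.K7.H22.SNP.vec3 8 2 2 i : ℕ) : ℝ)) +
      (1 / 2 : ℝ) • (fun i : ℕ => ((Pool.Agent.K7.H22.SNP.vec3 6 6 0 i : ℕ) : ℝ)) := by
    funext i
    simp only [Pi.add_apply, Pi.smul_apply, smul_eq_mul, Pool.Agent.K7.H22.SNP.vec3,
      Finsupp.add_apply, Finsupp.single_apply]
    push_cast
    split_ifs <;> norm_num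
  rw [e]
  apply convex_convexHull ℝ _
  · exact subset_convexHull ℝ _ ⟨_, Pool.Agent.K7.H22.SNP.mem1, rfl⟩
  · exact subset_convexHull ℝ _ ⟨_, Pool.Agent.K7.H22.SNP.mem2, rfl⟩
  · norm_num
  · norm_num
  · norm_num

end Pool.Agent.S08782
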