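import Pool.Statements.S10914
import Pool.Agent.K7.H57.EU.Bound
import Pool.Agent.K7.H57.EU.Copies
-- import your own Pool.Agent.* helpers here

set_option autoImplicit false
open Pool Pool.MP_b399ad_co

namespace Pool.Agent.S10914

/-- The negation of the preceding statement: For H = two disjoint two-way infinite paths joined by one edge: every simple graph containing n pairwise edge-disjoint copies of H for each n contains infinitely many pairwise edge-disjoint copies of H. -/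
theorem result :
    ¬ (∀ H : SimpleGraph (Bool × ℤ),
      H = SimpleGraph.fromRel (fun x y : Bool × ℤ =>
        (x.1 = y.1 ∧ x.2 + 1 = y.2) ∨ (x.1 ≠ y.1 ∧ x.2 = 0 ∧ y.2 = 0)) →
    ∀ (V : Type) (G : SimpleGraph V),
      (∀ n : ℕ, ∃ f : Fin n → (H →g G),
        (∀ i, Function.Injective (f i)) ∧
        ∀ i j, i ≠ j → ∀ a b c d, H.Adj a b → H.Adj c d →
          Sym2.mk (f i a, f i b) ≠ Sym2.mk (f j c, f j d)) →
      ∃ f : ℕ → (H →g G),
        (∀ i, Function.Injective (f i)) ∧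
        ∀ i j, i ≠ j → ∀ a b c d, H.Adj a b → H.Adj c d →
          Sym2.mk (f i a, f i b) ≠ Sym2.mk (f j c, f j d)) := by
  intro h
  obtain ⟨f, hf, hd⟩ := h Pool.Agent.K7.H57.EU.H rfl Pool.Agent.K7.H57.EU.V Pool.Agent.K7.H57.EU.G (by
    intro n
    refine ⟨fun i => Pool.Agent.K7.H57.EU.cpHom n i, fun i => Pool.Agent.K7.H57.EU.cp_inj n i, ?_⟩
    intro i j hij a b c d hab _ he
    refine Pool.Agent.K7.H57.EU.cp_disj (p := a) (q := b) (p' := c) (q' := d)
        i.2 (fun he => hij (Fin.ext he)) hab ?_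
    have h1 := congrFun he (Pool.Agent.K7.H57.EU.cpHom n i a, Pool.Agent.K7.H57.EU.cpHom n i b)
    rw [Sym2.eq_iff] at h1
    have h2 : ((Pool.Agent.K7.H57.EU.cpHom n i a, Pool.Agent.K7.H57.EU.cpHom n i b) :
        Pool.Agent.K7.H57.EU.V × Pool.Agent.K7.H57.EU.V) =
        (Pool.Agent.K7.H57.EU.cpHom n j c, Pool.Agent.K7.H57.EU.cpHom n j d) := by
      rcases h1 with h1 | h1
      · exact h1.1
      · exact h1.2
    rw [Prod.mk.injEq] at h2
    have h3 : Pool.Agent.K7.H57.EU.cp n i a = Pool.Agent.K7.H57.EU.cp n j c := h2.1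
    have h4 : Pool.Agent.K7.H57.EU.cp n i b = Pool.Agent.K7.H57.EU.cp n j d := h2.2
    rw [h3, h4])
  refine Pool.Agent.K7.H57.EU.no_infinite f hf ?_
  rintro i j hij x y ⟨p, q, hpq, h1, h2⟩ ⟨p', q', hpq', h3, h4⟩
  refine hd i j hij p q p' q' hpq hpq' ?_
  rw [h1, h2, h3, h4]

end Pool.Agent.S10914
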