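import Pool.Statements.S11587
import Pool.Agent.K7.H27.OS.Fin

set_option autoImplicit false
open Pool Pool.MP_d12cfa_co

namespace Pool.Agent.S11587

/-- For every n ≥ 1, the number of symmetric (2n+1)×(2n+1) alternating sign matrices with at most one nonzero diagonal entry equals 2^(n-1)(3n+2)!/(2n+1)! times the product over i=1..n of (6i-2)!/(2n+2i+1)!. -/
theorem result :
    ∀ n : ℕ, 1 ≤ n →
      ((Nat.card {A : Matrix (Fin (2 * n + 1)) (Fin (2 * n + 1)) ℤ //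
          (∀ i j, A i j = -1 ∨ A i j = 0 ∨ A i j = 1) ∧
          (∀ i k, (∑ j ∈ Finset.Iic k, A i j) = 0 ∨ (∑ j ∈ Finset.Iic k, A i j) = 1) ∧
          (∀ i, (∑ j, A i j) = 1) ∧
          (∀ j k, (∑ i ∈ Finset.Iic k, A i j) = 0 ∨ (∑ i ∈ Finset.Iic k, A i j) = 1) ∧
          (∀ j, (∑ i, A i j) = 1) ∧
          (∀ i j, A i j = A j i) ∧
          (∃ d : Fin (2 * n + 1), ∀ i, i ≠ d → A i i = 0)} : ℕ) : ℚ)
        = (2 : ℚ) ^ (n - 1) * ((Nat.factorial (3 * n + 2) : ℕ) : ℚ)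
            / ((Nat.factorial (2 * n + 1) : ℕ) : ℚ)
          * ∏ i ∈ Finset.Icc 1 n,
              (((Nat.factorial (6 * i - 2) : ℕ) : ℚ)
                / ((Nat.factorial (2 * n + 2 * i + 1) : ℕ) : ℚ)) := by
  intro n hn
  apply Rat.cast_injective (α := ℂ)
  have h := Pool.Agent.K7.H27.OS.card_eq n
  unfold Pool.Agent.K7.H27.OS.PP at h
  have h1 : ∏ i ∈ Finset.Icc 1 n, (((Nat.factorial (6 * i - 2) : ℕ) : ℚ)
      / ((Nat.factorial (2 * n + 2 * i + 1) : ℕ) : ℚ)) =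
      ∏ i ∈ Finset.range n, (((Nat.factorial (6 * i + 4) : ℕ) : ℚ)
      / ((Nat.factorial (2 * n + 2 * i + 3) : ℕ) : ℚ)) := by
    have : Finset.Icc 1 n = Finset.Ico 1 (n + 1) := by
      ext i
      simp [Nat.lt_succ_iff]
    rw [this, Finset.prod_Ico_eq_prod_range, Nat.add_sub_cancel]
    refine Finset.prod_congr rfl fun i _ => ?_
    have e1 : 6 * (1 + i) - 2 = 6 * i + 4 := by omega
    have e2 : 2 * n + 2 * (1 + i) + 1 = 2 * n + 2 * i + 3 := by ring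
    rw [e1, e2]
  rw [h1]
  obtain ⟨m, rfl⟩ : ∃ m, n = m + 1 := ⟨n - 1, by omega⟩
  rw [Nat.add_sub_cancel]
  push_cast
  rw [h, Pool.Agent.K7.H27.OS.Fc, pow_succ]
  push_cast
  ring

end Pool.Agent.S11587
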