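import Pool.Statements.S13092
import Pool.Agent.K7.H37.StableIso

set_option autoImplicit false
open LaurentPolynomial
open scoped Matrix
open Pool Pool.MP_436001_gt

namespace Pool.Agent.S13092

open Pool.Agent.W594.Herm Pool.Agent.K7.H37.StableIso

/-- the involution of `ℤ[t,t⁻¹]` -/
noncomputable def sg : LaurentPolynomial ℤ →+* LaurentPolynomial ℤ :=
  (invert (R := ℤ) : LaurentPolynomial ℤ →+* LaurentPolynomial ℤ)

/-- the augmentation -/
noncomputable def au : LaurentPolynomial ℤ →+* ℤ := eval₂ (RingHom.id ℤ) 1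

/-- removing the trivial factor -/
def E1 : (Fin 2 ⊕ Fin 2 × Fin 1) ≃ (Fin 2 ⊕ Fin 2) :=
  Equiv.sumCongr (Equiv.refl _) (Equiv.prodUnique (Fin 2) (Fin 1))

/-- removing the empty part -/
def E0 : (Fin 2 ⊕ Fin 2 × Fin 0) ≃ Fin 2 := Equiv.sumEmpty (Fin 2) (Fin 2 × Fin 0)

theorem TT : (T 1 : LaurentPolynomial ℤ) * T (-1) = 1 := by
  rw [← T_add]; simp

theorem sg_T1 : sg (T 1) = T (-1) := by simp [sg]

theorem sg_Tm1 : sg (T (-1)) = T 1 := by simp [sg]

theorem au_T (k : ℤ) : au (T k) = 1 := by simp [au]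

theorem Lt_eq : Lt (T 1 : LaurentPolynomial ℤ) (T (-1)) = blk 1 := by
  have e2 : (T 2 : LaurentPolynomial ℤ) = T 1 * T 1 := by rw [← T_add]; rfl
  have e3 : (T (-2) : LaurentPolynomial ℤ) = T (-1) * T (-1) := by rw [← T_add]; rfl
  unfold Lt blk
  simp only [mul_one, e2, e3, pow_two]

theorem blocks_eq (A : Matrix (Fin 2) (Fin 2) (LaurentPolynomial ℤ))
    (H : Matrix (Fin 2) (Fin 2) (LaurentPolynomial ℤ)) :
    Matrix.fromBlocks A 0 0 (Matrix.blockDiagonal (fun _ : Fin 1 => H)) =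
      (Matrix.fromBlocks A 0 0 H).submatrix E1 E1 := by
  apply Matrix.ext
  rintro (i | ⟨i, k⟩) (j | ⟨j, l⟩)
  · simp [E1]
  · simp [E1]
  · simp [E1]
  · have : k = l := Subsingleton.elim _ _
    simp [E1, this]

theorem map_Pt : ((Pt (T 1 : LaurentPolynomial ℤ) (T (-1))).map sg) = Pt (T (-1)) (T 1) := by
  unfold Pt
  rw [Matrix.fromBlocks_map]
  have h4 : sg 4 = 4 := map_ofNat sg 4
  have h5 : sg 5 = 5 := map_ofNat sg 5
  have h6 : sg 6 = 6 := map_ofNat sg 6
  have h7 : sg 7 = 7 := map_ofNat sg 7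
  have h8 : sg 8 = 8 := map_ofNat sg 8
  have h21 : sg 21 = 21 := map_ofNat sg 21
  have h24 : sg 24 = 24 := map_ofNat sg 24
  have h25 : sg 25 = 25 := map_ofNat sg 25
  have h30 : sg 30 = 30 := map_ofNat sg 30
  have h35 : sg 35 = 35 := map_ofNat sg 35
  have h42 : sg 42 = 42 := map_ofNat sg 42
  have h125 : sg 125 = 125 := map_ofNat sg 125
  have h150 : sg 150 = 150 := map_ofNat sg 150
  congr 1 <;>
  · apply Matrix.ext
    intro i j
    fin_cases i <;> fin_cases j <;>
      simp [-T_pow, map_pow, sg_T1, sg_Tm1, h4, h5, h6, h7, h8, h21, h24, h25, h30, h35, h42,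
        h125, h150]

theorem not_iso (P : Matrix (Fin 2) (Fin 2) (LaurentPolynomial ℤ))
    (hP : IsUnit P.det) (h : (P.map sg)ᵀ * blk 1 * P = Qt (LaurentPolynomial ℤ)) : False := by
  have hm : ∀ a : ℕ, 0 < a → a ≤ 10 → (a : ZMod 11) * ((1 : ℤ) : ZMod 11) ≠ 0 := by
    intro a ha ha' h0
    rw [Int.cast_one, mul_one, ZMod.natCast_eq_zero_iff] at h0
    have := Nat.le_of_dvd ha h0
    omega
  have : NeZero 11 := ⟨by norm_num⟩
  refine not_isometric 11 1 hm 0 (Matrix.fromBlocks (Qt (LaurentPolynomial ℤ)) 0 0 1)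
    (Pm 11 0) (Pm' 11 0) (Pm_mul 11 0) ?_ ⟨Matrix.fromBlocks P 0 0 1, ?_, ?_⟩
  · unfold conjG Pm Qt
    rw [Matrix.fromBlocks_map, Matrix.fromBlocks_map, Matrix.fromBlocks_transpose,
      Matrix.fromBlocks_multiply]
    have e3 : inv 11 (3 : GR 11) = 3 := map_ofNat _ 3
    have e4 : inv 11 (4 : GR 11) = 4 := map_ofNat _ 4
    have f25 : φ 11 (25 : LaurentPolynomial ℤ) = 25 := map_ofNat _ 25
    have f7 : φ 11 (7 : LaurentPolynomial ℤ) = 7 := map_ofNat _ 7
    have f2 : φ 11 (2 : LaurentPolynomial ℤ) = 2 := map_ofNat _ 2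
    congr 1
    · apply Matrix.ext
      intro a b
      fin_cases a <;> fin_cases b <;>
        simp [Matrix.mul_apply, Fin.sum_univ_two, e3, e4, f25, f7, f2] <;> norm_num
    · apply Matrix.ext; intro a b; exact b.elim0
    · apply Matrix.ext; intro a; exact a.elim0
  · rw [Matrix.det_fromBlocks_zero₂₁, Matrix.det_one, mul_one]
    exact hP
  · unfold conjT Am
    rw [Matrix.fromBlocks_map, Matrix.fromBlocks_transpose, Matrix.fromBlocks_multiply,
      Matrix.fromBlocks_multiply]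
    congr 1
    · simp only [Matrix.mul_zero, add_zero]
      exact h
    · apply Matrix.ext; intro a b; exact b.elim0
    · apply Matrix.ext; intro a; exact a.elim0

theorem map_Qt {R : Type*} [CommRing R] (f : ℤ →+* R) : (Qt ℤ).map f = Qt R := by
  unfold Qt
  apply Matrix.ext
  intro i j
  fin_cases i <;> fin_cases j <;> simp

theorem map_au_blk : (blk 1).map au = Qt ℤ := by
  unfold blk Qt
  have h25 : au 25 = 25 := map_ofNat au 25
  have h7 : au 7 = 7 := map_ofNat au 7
  have h4 : au 4 = 4 := map_ofNat au 4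
  have h10 : au 10 = 10 := map_ofNat au 10
  apply Matrix.ext
  intro i j
  fin_cases i <;> fin_cases j <;> simp [au_T, h25, h7, h4, h10]


/-- The negation of the preceding statement: Suppose a nondegenerate Hermitian Laurent-polynomial form L has boundary linking form isometric to that of H2^g, L at t=1 equals Q plus 2g zeros, and L plus n H2's ≅ Q plus (g+n) H2's. Then L ≅ Q ⊕ H2^g. -/
theorem result :
    ¬ (∀ (σ : LaurentPolynomial ℤ →+* LaurentPolynomial ℤ) (ε : LaurentPolynomial ℤ →+* ℤ),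
      σ (T 1) = T (-1) → ε (T 1) = 1 →
      ∀ (H2 : Matrix (Fin 2) (Fin 2) (LaurentPolynomial ℤ)),
        H2 = !![0, T 1 - 1; T (-1) - 1, 0] →
      ∀ (k : ℕ) (Q : Matrix (Fin k) (Fin k) ℤ), Qᵀ = Q → IsUnit Q.det →
      ∀ (g r : ℕ) (L : Matrix (Fin r) (Fin r) (LaurentPolynomial ℤ)),
        (L.map σ)ᵀ = L → L.det ≠ 0 →
        (∃ (P Q1 : Matrix (Fin 2 × Fin g) (Fin r) (LaurentPolynomial ℤ))
            (P' Q2 : Matrix (Fin r) (Fin 2 × Fin g) (LaurentPolynomial ℤ))
            (S1 M : Matrix (Fin r) (Fin r) (LaurentPolynomial ℤ))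
            (S2 : Matrix (Fin 2 × Fin g) (Fin 2 × Fin g) (LaurentPolynomial ℤ)),
            P * L = Matrix.blockDiagonal (fun _ : Fin g => H2) * Q1 ∧
            P' * Matrix.blockDiagonal (fun _ : Fin g => H2) = L * Q2 ∧
            P' * P = 1 + L * S1 ∧
            P * P' = 1 + Matrix.blockDiagonal (fun _ : Fin g => H2) * S2 ∧
            (L.map (algebraMap (LaurentPolynomial ℤ) (FractionRing (LaurentPolynomial ℤ))))⁻¹
              - ((P.map σ)ᵀ).map (algebraMap (LaurentPolynomial ℤ) (FractionRing (LaurentPolynomial ℤ)))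
                * ((Matrix.blockDiagonal (fun _ : Fin g => H2)).map
                    (algebraMap (LaurentPolynomial ℤ) (FractionRing (LaurentPolynomial ℤ))))⁻¹
                * P.map (algebraMap (LaurentPolynomial ℤ) (FractionRing (LaurentPolynomial ℤ)))
              = M.map (algebraMap (LaurentPolynomial ℤ) (FractionRing (LaurentPolynomial ℤ)))) →
        (∃ (P : Matrix (Fin r) (Fin k ⊕ Fin 2 × Fin g) ℤ)
            (P' : Matrix (Fin k ⊕ Fin 2 × Fin g) (Fin r) ℤ),
            P * P' = 1 ∧ P' * P = 1 ∧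
            Pᵀ * L.map ε * P = Matrix.fromBlocks Q 0 0 0) →
        (∃ (n : ℕ) (P : Matrix (Fin r ⊕ Fin 2 × Fin n) (Fin k ⊕ Fin 2 × Fin (g + n)) (LaurentPolynomial ℤ))
            (P' : Matrix (Fin k ⊕ Fin 2 × Fin (g + n)) (Fin r ⊕ Fin 2 × Fin n) (LaurentPolynomial ℤ)),
            P * P' = 1 ∧ P' * P = 1 ∧
            (P.map σ)ᵀ * Matrix.fromBlocks L 0 0 (Matrix.blockDiagonal (fun _ : Fin n => H2)) * P
              = Matrix.fromBlocks (Q.map (Int.castRingHom (LaurentPolynomial ℤ))) 0 0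
                  (Matrix.blockDiagonal (fun _ : Fin (g + n) => H2))) →
        ∃ (P : Matrix (Fin r) (Fin k ⊕ Fin 2 × Fin g) (LaurentPolynomial ℤ))
          (P' : Matrix (Fin k ⊕ Fin 2 × Fin g) (Fin r) (LaurentPolynomial ℤ)),
          P * P' = 1 ∧ P' * P = 1 ∧
          (P.map σ)ᵀ * L * P
            = Matrix.fromBlocks (Q.map (Int.castRingHom (LaurentPolynomial ℤ))) 0 0
                (Matrix.blockDiagonal (fun _ : Fin g => H2))) := by
  intro H
  have hLsym : ((blk 1).map sg)ᵀ = blk 1 := by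
    have h := conjT_Am 0 1
    unfold conjT Am at h
    rw [Matrix.fromBlocks_map, Matrix.fromBlocks_transpose] at h
    exact (Matrix.fromBlocks_inj.1 h).1
  have hLdet : (blk 1).det = 1 := det_blk 1
  obtain ⟨P, P', h1, h2, h3⟩ := H sg au sg_T1 (au_T 1) (Ht (T 1) (T (-1))) rfl 2 (Qt ℤ)
    (by unfold Qt; ext i j; fin_cases i <;> fin_cases j <;> rfl)
    (by unfold Qt; rw [Matrix.det_fin_two_of]; norm_num)
    0 2 (blk 1) hLsym (by rw [hLdet]; exact one_ne_zero)
    (by
      have hu : IsUnit (blk 1).det := by rw [hLdet]; exact isUnit_one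
      have hm := Matrix.mul_nonsing_inv (blk 1) hu
      refine ⟨0, 0, 0, 0, -(blk 1)⁻¹, (blk 1)⁻¹, 0, ?_, ?_, ?_, ?_, ?_⟩
      · apply Matrix.ext; rintro ⟨_, a⟩; exact a.elim0
      · apply Matrix.ext; rintro _ ⟨_, a⟩; exact a.elim0
      · rw [Matrix.mul_neg, hm, add_neg_cancel, Matrix.zero_mul]
      · apply Matrix.ext; rintro ⟨_, a⟩; exact a.elim0
      · have hz : (Matrix.map (0 : Matrix (Fin 2 × Fin 0) (Fin 2) (LaurentPolynomial ℤ))
            (algebraMap (LaurentPolynomial ℤ) (FractionRing (LaurentPolynomial ℤ)))) = 0 := by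
          apply Matrix.ext; rintro ⟨_, a⟩; exact a.elim0
        rw [hz, Matrix.mul_zero, sub_zero]
        refine Matrix.inv_eq_right_inv ?_
        rw [← Matrix.map_mul, hm, Matrix.map_one _ (map_zero _) (map_one _)])
    (by
      refine ⟨(1 : Matrix (Fin 2) (Fin 2) ℤ).submatrix id E0,
        (1 : Matrix (Fin 2) (Fin 2) ℤ).submatrix E0 id, ?_, ?_, ?_⟩
      · rw [Matrix.submatrix_mul_equiv, Matrix.one_mul, Matrix.submatrix_id_id]
      · have := Matrix.submatrix_mul_equiv (1 : Matrix (Fin 2) (Fin 2) ℤ) 1 E0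
          (Equiv.refl (Fin 2)) E0
        simp only [Equiv.coe_refl] at this
        rw [this, Matrix.one_mul, Matrix.submatrix_one_equiv]
      · rw [map_au_blk]
        apply Matrix.ext
        rintro (i | ⟨_, a⟩) (j | ⟨_, b⟩)
        · rw [Matrix.transpose_submatrix, Matrix.transpose_one]
          have e1 := Matrix.submatrix_mul_equiv (1 : Matrix (Fin 2) (Fin 2) ℤ) (Qt ℤ) E0
            (Equiv.refl (Fin 2)) id
          have e2 := Matrix.submatrix_mul_equiv (1 * Qt ℤ : Matrix (Fin 2) (Fin 2) ℤ)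
            (1 : Matrix (Fin 2) (Fin 2) ℤ) E0 (Equiv.refl (Fin 2)) E0
          simp only [Equiv.coe_refl, Matrix.submatrix_id_id] at e1 e2
          rw [e1, e2, Matrix.one_mul, Matrix.mul_one]
          rfl
        · exact b.elim0
        · exact a.elim0
        · exact a.elim0)
    (by
      refine ⟨1, (Pt (T 1 : LaurentPolynomial ℤ) (T (-1))).submatrix E1 E1,
        (Pt' (T 1 : LaurentPolynomial ℤ) (T (-1))).submatrix E1 E1, ?_, ?_, ?_⟩
      · exact (Matrix.submatrix_mul_equiv _ _ _ _ _).trans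
          (by rw [Pt_mul _ _ TT, Matrix.submatrix_one_equiv])
      · exact (Matrix.submatrix_mul_equiv _ _ _ _ _).trans
          (by rw [mul_eq_one_comm.1 (Pt_mul _ _ TT), Matrix.submatrix_one_equiv])
      · rw [map_Qt]
        have hb1 := blocks_eq (blk 1) (Ht (T 1) (T (-1)))
        have hb2 := blocks_eq (Qt (LaurentPolynomial ℤ)) (Ht (T 1) (T (-1)))
        refine Eq.trans ?_ hb2.symm
        rw [hb1, ← Pt_iso _ _ TT, Lt_eq]
        have e1 : (((Pt (T 1 : LaurentPolynomial ℤ) (T (-1))).submatrix E1 E1).map sg)ᵀ =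
            ((Pt (T (-1) : LaurentPolynomial ℤ) (T 1))ᵀ).submatrix E1 E1 := by
          rw [← map_Pt]; rfl
        refine Eq.trans (congrArg₂ _ (congrArg₂ _ e1 rfl) rfl) ?_
        rw [Matrix.submatrix_mul_equiv, Matrix.submatrix_mul_equiv])
  refine not_iso (P.submatrix id E0.symm) ?_ ?_
  · have e1 : P.submatrix id E0.symm * P'.submatrix E0.symm id = 1 := by
      rw [Matrix.submatrix_mul_equiv, h1, Matrix.submatrix_one id Function.injective_id]
    have e2 := congrArg Matrix.det e1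
    rw [Matrix.det_mul, Matrix.det_one] at e2
    exact IsUnit.of_mul_eq_one _ e2
  · have e3 := congrArg (fun M => M.submatrix E0.symm E0.symm) h3
    have e4 : ((P.submatrix id E0.symm).map sg)ᵀ = ((P.map sg)ᵀ).submatrix E0.symm id := rfl
    rw [e4]
    have e5 := Matrix.submatrix_mul_equiv ((P.map sg)ᵀ) (blk 1) E0.symm (Equiv.refl (Fin 2)) id
    have e6 := Matrix.submatrix_mul_equiv ((P.map sg)ᵀ * blk 1) P E0.symm (Equiv.refl (Fin 2))
      E0.symm
    simp only [Equiv.coe_refl, Matrix.submatrix_id_id] at e5 e6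
    rw [e5, e6]
    refine Eq.trans e3 ?_
    rw [map_Qt]
    apply Matrix.ext
    intro i j
    rfl

end Pool.Agent.S13092
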