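import Pool.Statements.S13210
import Pool.Agent.K7.H39.Cube.Lower

set_option autoImplicit false
open MeasureTheory
open scoped Pointwise
open Pool Pool.MP_598757_gt

namespace Pool.Agent.S13210

open K7.H39.Cube in
theorem interior_Q : (interior Q).Nonempty := by
  refine ⟨WithLp.toLp 2 ![1 / 2, 1 / 2, 1 / 2], ?_⟩
  rw [mem_interior]
  refine ⟨{x | (0 < x 0 ∧ x 0 < 1) ∧ (0 < x 1 ∧ x 1 < 1) ∧ (0 < x 2 ∧ x 2 < 1)}, ?_, ?_, ?_⟩
  · rintro x ⟨⟨h1, h2⟩, ⟨h3, h4⟩, h5, h6⟩
    exact ⟨⟨h1.le, h2.le⟩, ⟨h3.le, h4.le⟩, h5.le, h6.le⟩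
  · have h : ∀ i : Fin 3, Continuous fun x : EuclideanSpace ℝ (Fin 3) => x i := by
      intro i; fun_prop
    exact (((isOpen_lt continuous_const (h 0)).inter (isOpen_lt (h 0) continuous_const)).inter
      (((isOpen_lt continuous_const (h 1)).inter (isOpen_lt (h 1) continuous_const)).inter
        ((isOpen_lt continuous_const (h 2)).inter (isOpen_lt (h 2) continuous_const))))
  · simp
    norm_num

/-- The cube `[0,1]³` refutes the statement: `9π vol² / (2 V₂³) = π / 6`, while every projection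
has `π area / V₁² ≥ 2π / 11`. -/
theorem result :
    ¬ (∀ (K : Set (EuclideanSpace ℝ (Fin 3))) (c : ℝ),
    IsCompact K → Convex ℝ K → (interior K).Nonempty →
    (∀ u ∈ Metric.sphere (0 : EuclideanSpace ℝ (Fin 3)) 1, ∀ L : ℝ,
      Filter.Tendsto (fun t : ℝ =>
        ((volume ((fun x : EuclideanSpace ℝ (Fin 3) => x - (inner ℝ u x) • u) '' K
              + Metric.closedBall (0 : EuclideanSpace ℝ (Fin 3)) t)).toReal
          - 2 * t * ((volume (K + segment ℝ (0 : EuclideanSpace ℝ (Fin 3)) u)).toReal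
              - (volume K).toReal)) / (Real.pi * t ^ 2))
        (nhdsWithin 0 (Set.Ioi 0)) (nhds L) →
      c ≤ Real.pi * ((volume (K + segment ℝ (0 : EuclideanSpace ℝ (Fin 3)) u)).toReal
              - (volume K).toReal) / L ^ 2) →
    ∀ S : ℝ,
      Filter.Tendsto (fun t : ℝ =>
        ((volume (K + Metric.closedBall (0 : EuclideanSpace ℝ (Fin 3)) t)).toReal
          - (volume K).toReal) / (2 * t))
        (nhdsWithin 0 (Set.Ioi 0)) (nhds S) →
      c ≤ 9 * Real.pi * (volume K).toReal ^ 2 / (2 * S ^ 3)) := by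
  intro h
  have hpi := Real.pi_pos
  have key := h K7.H39.Cube.Q (Real.pi / 5.5) K7.H39.Cube.Q_compact K7.H39.Cube.Q_convex
    interior_Q ?_ 3 ?_
  · have hv : (volume K7.H39.Cube.Q).toReal = 1 := K7.H39.Cube.vol_Q
    rw [hv] at key
    norm_num at key
    nlinarith
  · -- the projections
    intro u hu L hL
    have hu1 : ‖u‖ = 1 := by simpa using hu
    set A : ℝ := K7.H39.Cube.G K7.H39.Cube.Q u with hA
    have hAe : (volume (K7.H39.Cube.Q + segment ℝ (0 : EuclideanSpace ℝ (Fin 3)) u)).toReal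
        - (volume K7.H39.Cube.Q).toReal = A := by
      rw [hA, ← K7.H39.Cube.Sg_zero_one]
      rfl
    rw [hAe] at hL ⊢
    set ℓ : ℝ := ‖K7.H39.Cube.P u (EuclideanSpace.single 0 1)‖ +
      ‖K7.H39.Cube.P u (EuclideanSpace.single 1 1)‖ +
      ‖K7.H39.Cube.P u (EuclideanSpace.single 2 1)‖ with hℓ
    have hPe : (fun x : EuclideanSpace ℝ (Fin 3) => x - (inner ℝ u x) • u) =
        K7.H39.Cube.P u := by
      funext x
      rw [K7.H39.Cube.P_apply]
    rw [hPe] at hL
    -- the sequence `1 / (n + 1)`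
    have hseq : Filter.Tendsto (fun n : ℕ => (1 / ((n + 1 : ℕ) : ℝ))) Filter.atTop
        (nhdsWithin 0 (Set.Ioi 0)) := by
      rw [tendsto_nhdsWithin_iff]
      refine ⟨?_, Filter.Eventually.of_forall fun n => ?_⟩
      · have := tendsto_one_div_add_atTop_nhds_zero_nat (𝕜 := ℝ)
        refine this.congr fun n => ?_
        push_cast; rfl
      · have : (0 : ℝ) < ((n + 1 : ℕ) : ℝ) := by positivity
        exact Set.mem_Ioi.2 (by positivity)
    have hlim := hL.comp hseq
    have hval : ∀ n : ℕ, ((fun t : ℝ =>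
        ((volume ((K7.H39.Cube.P u) '' K7.H39.Cube.Q
              + Metric.closedBall (0 : EuclideanSpace ℝ (Fin 3)) t)).toReal
          - 2 * t * A) / (Real.pi * t ^ 2)) ∘ (fun n : ℕ => (1 / ((n + 1 : ℕ) : ℝ)))) n =
        ℓ + K7.H39.Cube.ka 3 / Real.pi * (1 / ((n + 1 : ℕ) : ℝ)) := by
      intro n
      have h1 := K7.H39.Cube.vol_proj_add_ball hu1 (n + 1) (Nat.succ_pos n)
      have h2 : (volume ((K7.H39.Cube.P u) '' K7.H39.Cube.Q
              + Metric.closedBall (0 : EuclideanSpace ℝ (Fin 3)) (1 / ((n + 1 : ℕ) : ℝ)))).toReal =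
          K7.H39.Cube.vol ((K7.H39.Cube.P u) '' K7.H39.Cube.Q
              + Metric.closedBall (0 : EuclideanSpace ℝ (Fin 3)) (1 / ((n + 1 : ℕ) : ℝ))) := rfl
      have hn : (0 : ℝ) < ((n + 1 : ℕ) : ℝ) := by positivity
      simp only [Function.comp]
      rw [h2, h1, ← hℓ, ← hA]
      field_simp
      ring
    have hlim2 : Filter.Tendsto (fun n : ℕ => ℓ + K7.H39.Cube.ka 3 / Real.pi *
        (1 / ((n + 1 : ℕ) : ℝ))) Filter.atTop (nhds (ℓ + K7.H39.Cube.ka 3 / Real.pi * 0)) := by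
      apply Filter.Tendsto.const_add
      apply Filter.Tendsto.const_mul
      exact (tendsto_nhdsWithin_iff.1 hseq).1
    rw [mul_zero, add_zero] at hlim2
    have hLℓ : L = ℓ := tendsto_nhds_unique hlim (hlim2.congr fun n => (hval n).symm)
    rw [hLℓ]
    -- the inequality
    have hsum : |u 0| ^ 2 + |u 1| ^ 2 + |u 2| ^ 2 = 1 := by
      have := EuclideanSpace.real_norm_sq_eq u
      rw [hu1, Fin.sum_univ_three] at this
      rw [sq_abs, sq_abs, sq_abs, ← this]
      ring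
    obtain ⟨g1, g2, g3⟩ := K7.H39.Cube.G_ge (u := u)
    have e0 := K7.H39.Cube.norm_P_single hu1 0
    have e1 := K7.H39.Cube.norm_P_single hu1 1
    have e2 := K7.H39.Cube.norm_P_single hu1 2
    rw [← sq_abs (u 0)] at e0
    rw [← sq_abs (u 1)] at e1
    rw [← sq_abs (u 2)] at e2
    have hin := K7.H39.Cube.ineq (abs_nonneg (u 0)) (abs_nonneg (u 1)) (abs_nonneg (u 2))
      (norm_nonneg (K7.H39.Cube.P u (EuclideanSpace.single 0 1)))
      (norm_nonneg (K7.H39.Cube.P u (EuclideanSpace.single 1 1)))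
      (norm_nonneg (K7.H39.Cube.P u (EuclideanSpace.single 2 1)))
      hsum e0 e1 e2 g1 g2 g3
    rw [← hℓ, ← hA] at hin
    have hℓ0 : 0 < ℓ ^ 2 := by
      have n0 := norm_nonneg (K7.H39.Cube.P u (EuclideanSpace.single 0 1))
      have n1 := norm_nonneg (K7.H39.Cube.P u (EuclideanSpace.single 1 1))
      have n2 := norm_nonneg (K7.H39.Cube.P u (EuclideanSpace.single 2 1))
      have h3 : 2 ≤ ℓ ^ 2 := by
        rw [hℓ]
        nlinarith [mul_nonneg n0 n1, mul_nonneg n1 n2, mul_nonneg n0 n2]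
      linarith
    rw [div_le_div_iff₀ (by norm_num) hℓ0]
    nlinarith
  · -- the surface area
    have hev : ∀ t ∈ Set.Ioi (0 : ℝ), (3 + 3 * Real.pi / 2 * t + K7.H39.Cube.ka 3 / 2 * t ^ 2) =
        ((volume (K7.H39.Cube.Q + Metric.closedBall (0 : EuclideanSpace ℝ (Fin 3)) t)).toReal
          - (volume K7.H39.Cube.Q).toReal) / (2 * t) := by
      intro t ht
      have ht' : 0 < t := ht
      have h1 : (volume (K7.H39.Cube.Q + Metric.closedBall (0 : EuclideanSpace ℝ (Fin 3)) t)).toReal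
          = 1 + 6 * t + 3 * Real.pi * t ^ 2 + K7.H39.Cube.ka 3 * t ^ 3 :=
        K7.H39.Cube.vol_Q_add_ball ht'.le
      have h2 : (volume K7.H39.Cube.Q).toReal = 1 := K7.H39.Cube.vol_Q
      rw [h1, h2]
      field_simp
      ring
    have hcont : Filter.Tendsto (fun t : ℝ => 3 + 3 * Real.pi / 2 * t + K7.H39.Cube.ka 3 / 2 * t ^ 2)
        (nhdsWithin 0 (Set.Ioi 0)) (nhds 3) := by
      have h3 : Continuous (fun t : ℝ => 3 + 3 * Real.pi / 2 * t + K7.H39.Cube.ka 3 / 2 * t ^ 2) := by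
        fun_prop
      have h4 := h3.tendsto 0
      simp only [mul_zero, add_zero, ne_eq, OfNat.ofNat_ne_zero, not_false_eq_true,
        zero_pow] at h4
      exact h4.mono_left nhdsWithin_le_nhds
    refine hcont.congr' ?_
    filter_upwards [self_mem_nhdsWithin] with t ht
    exact hev t ht

end Pool.Agent.S13210
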