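import Pool.Statements.S13710
import Pool.Agent.K7.H29.Wedge

/-!
The wedge `YY` of two projective planes is unicoherent, because every circle-valued map on it has
a continuous logarithm. Its double covering `XX`, two spheres with common poles, is not.
-/

set_option autoImplicit false
open Pool Pool.MP_a6a8af_gt

namespace Pool.Agent.S13710

/-- The negation of the preceding statement: If X is a locally connected metric continuum that is a union of two subcontinua with disconnected intersection, and f is a local homeomorphism of X onto a metric space Y, then Y is also such a union. -/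
theorem result :
    ¬ (∀ (X Y : Type) [MetricSpace X] [CompactSpace X] [ConnectedSpace X]
      [LocallyConnectedSpace X] [MetricSpace Y] (f : X → Y),
      IsLocalHomeomorph f → Function.Surjective f →
      (∃ A B : Set X, IsClosed A ∧ IsClosed B ∧ IsConnected A ∧ IsConnected B ∧
          A ∪ B = Set.univ ∧ ¬ IsConnected (A ∩ B)) →
      (∃ A B : Set Y, IsClosed A ∧ IsClosed B ∧ IsConnected A ∧ IsConnected B ∧
          A ∪ B = Set.univ ∧ ¬ IsConnected (A ∩ B))) := by
  intro h
  obtain ⟨A, B, hA, hB, hAc, hBc, hAB, hn⟩ := h Pool.Agent.K7.H29.XX Pool.Agent.K7.H29.YY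
    Pool.Agent.K7.H29.ff Pool.Agent.K7.H29.ff_local Pool.Agent.K7.H29.ff_surj
    Pool.Agent.K7.H29.XX_not_unicoherent
  exact hn (Pool.Agent.K7.H29.unicoherent
    (Pool.Agent.K7.H29.pb_subtype Pool.Agent.K7.H29.pb_YY) hA hB hAc hBc hAB
    Pool.Agent.K7.H29.YY_connected.isPreconnected)

end Pool.Agent.S13710
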