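import Pool.Statements.S17401
-- import your own Pool.Agent.* helpers here
import Pool.Agent.K7.H64.DS.Transfer

set_option autoImplicit false
open MeasureTheory
open Pool Pool.MP_721c84_nt

namespace Pool.Agent.S17401

/-- For every d≥1 and γ in (0,1) there is M>0 such that, for every nonnegative ψ, if the d-dim Lebesgue measures of the sets E_n^d (points of [0,1]^d each coordinate within ψ(n)/n of some a/n, a coprime to n) sum to at least M, their union has measure at least γ. -/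
theorem result :
    ∀ d : ℕ, 1 ≤ d → ∀ γ : ℝ, 0 < γ → γ < 1 →
      ∃ M : ℝ, 0 < M ∧ ∀ ψ : ℕ → ℝ, (∀ n, 0 ≤ ψ n) →
        ENNReal.ofReal M ≤ ∑' n : ℕ, volume
          {x : Fin d → ℝ | ∀ i, x i ∈ Set.Icc (0 : ℝ) 1 ∧
            ∃ a : ℤ, Int.gcd a ((n + 1 : ℕ) : ℤ) = 1 ∧
              |x i - (a : ℝ) / ((n + 1 : ℕ) : ℝ)| < ψ (n + 1) / ((n + 1 : ℕ) : ℝ)} →
        ENNReal.ofReal γ ≤ volume (⋃ n : ℕ,
          {x : Fin d → ℝ | ∀ i, x i ∈ Set.Icc (0 : ℝ) 1 ∧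
            ∃ a : ℤ, Int.gcd a ((n + 1 : ℕ) : ℤ) = 1 ∧
              |x i - (a : ℝ) / ((n + 1 : ℕ) : ℝ)| < ψ (n + 1) / ((n + 1 : ℕ) : ℝ)}) := by
  classical
  intro d hd γ hγ0 hγ1
  obtain ⟨M, hM0, hM⟩ := Pool.Agent.K7.H64.DS.torus_bound d hd γ hγ0 hγ1
  refine ⟨2 * M, by positivity, fun ψ hψ hsum => ?_⟩
  set E : ℕ → Set (Fin d → ℝ) := fun n => {x : Fin d → ℝ | ∀ i, x i ∈ Set.Icc (0 : ℝ) 1 ∧
            ∃ a : ℤ, Int.gcd a ((n + 1 : ℕ) : ℤ) = 1 ∧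
              |x i - (a : ℝ) / ((n + 1 : ℕ) : ℝ)| < ψ (n + 1) / ((n + 1 : ℕ) : ℝ)} with hE
  have hEed : ∀ n, E n = Pool.Agent.K7.H64.DS.ed d ψ (n + 1) := fun n => rfl
  have hlt : ENNReal.ofReal M < ∑' n, volume (E n) :=
    lt_of_lt_of_le ((ENNReal.ofReal_lt_ofReal_iff (by positivity)).2 (by linarith)) hsum
  rw [ENNReal.tsum_eq_iSup_sum, lt_iSup_iff] at hlt
  obtain ⟨S, hS⟩ := hlt
  set θ := Pool.Agent.K7.H64.DS.th ψ with hθ
  have hθ0 := Pool.Agent.K7.H64.DS.th_nonneg ψ hψ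
  have hθ1 := Pool.Agent.K7.H64.DS.th_le ψ
  -- sum bound
  have h1 : ENNReal.ofReal M < ENNReal.ofReal (∑ n ∈ S, θ (n + 1) ^ d) := by
    refine hS.trans_le ?_
    rw [ENNReal.ofReal_sum_of_nonneg fun n _ => pow_nonneg (hθ0 (n + 1)) d]
    refine Finset.sum_le_sum fun n _ => ?_
    rw [hEed n]
    exact Pool.Agent.K7.H64.DS.ed_meas_le d ψ hψ (n + 1) (Nat.succ_pos n)
  have h2 : M < ∑ n ∈ S, θ (n + 1) ^ d := (ENNReal.ofReal_lt_ofReal_iff_of_nonneg hM0.le).1 h1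
  set S' : Finset ℕ := (S.image (fun n => n + 1)).filter (fun n => 0 < θ n) with hS'
  have h3 : ∑ n ∈ S', θ n ^ d = ∑ n ∈ S, θ (n + 1) ^ d := by
    rw [hS', Finset.sum_filter_of_ne, Finset.sum_image]
    · intro a _ b _ hab
      exact Nat.succ_injective hab
    · intro n _ hne
      rcases (hθ0 n).lt_or_eq with h | h
      · exact h
      · exfalso
        apply hne
        have h' : θ n = 0 := h.symm
        rw [h', zero_pow (by omega)]
  have hS'pos : ∀ n ∈ S', 0 < n := by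
    intro n hn
    obtain ⟨m, -, hm⟩ := Finset.mem_image.1 (Finset.mem_filter.1 hn).1
    omega
  have h4 := hM S' hS'pos θ hθ0 hθ1 (fun n hn => (Finset.mem_filter.1 hn).2) (by rw [h3]; exact h2.le)
  refine h4.trans (Pool.Agent.K7.H64.DS.lift_le d ψ S' hS'pos _ fun n hn => ?_)
  obtain ⟨m, -, hm⟩ := Finset.mem_image.1 (Finset.mem_filter.1 hn).1
  rw [← hm]
  exact Set.subset_iUnion E m

end Pool.Agent.S17401
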